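import Pool.Agent.V5helper51.MW.Stm

/-!
# Job FAM of the project MW: correlations along families in short intervals
-/

set_option autoImplicit false

namespace Pool.Agent.V5helper21.MW

open Finset
open Pool.Agent.H807R2.Dav (ee norm_ee ee_add ee_zero)
open Pool.Agent.V5helper51.CM (Sf Bw gall)
open Pool.Agent.V5helper51.MW
open Pool.Agent.H373R2.T7 (energy sq_expand pow_expand orth)

/-- `|∑ C_i e(t φ_i / M)|²` summed over `t`, for coefficients bounded by `κ` -/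
lemma sq_bound {ι : Type*} (I : Finset ι) (C : ι → ℂ) (φ : ι → ℤ) (M : ℕ) (hM : 1 ≤ M) (κ : ℝ)
    (hC : ∀ i ∈ I, ‖C i‖ ≤ κ) :
    ∑ t ∈ range M, ‖∑ i ∈ I, C i * ee ((t : ℝ) * ((φ i : ℝ) / M))‖ ^ 2 ≤
      κ ^ 2 * ∑ i ∈ I, ∑ j ∈ I, (if (M : ℤ) ∣ φ i - φ j then (M : ℝ) else 0) := by
  have h1 := sq_expand I C φ M hM
  have hL : 0 ≤ ∑ t ∈ range M, ‖∑ i ∈ I, C i * ee ((t : ℝ) * ((φ i : ℝ) / M))‖ ^ 2 :=
    sum_nonneg fun _ _ => by positivity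
  have h3 : ∑ t ∈ range M, ‖∑ i ∈ I, C i * ee ((t : ℝ) * ((φ i : ℝ) / M))‖ ^ 2 =
      ‖∑ i ∈ I, ∑ j ∈ I, C i * (starRingEnd ℂ) (C j) *
        (if (M : ℤ) ∣ φ i - φ j then (M : ℂ) else 0)‖ := by
    rw [← h1, Complex.norm_real, Real.norm_of_nonneg hL]
  rw [h3, mul_sum]
  refine (norm_sum_le _ _).trans (sum_le_sum fun i hi => ?_)
  rw [mul_sum]
  refine (norm_sum_le _ _).trans (sum_le_sum fun j hj => ?_)
  rw [norm_mul, norm_mul, RCLike.norm_conj]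
  have h5 : ‖(if (M : ℤ) ∣ φ i - φ j then (M : ℂ) else 0)‖ =
      if (M : ℤ) ∣ φ i - φ j then (M : ℝ) else 0 := by
    split_ifs <;> simp
  rw [h5]
  have h6 : (0 : ℝ) ≤ if (M : ℤ) ∣ φ i - φ j then (M : ℝ) else 0 := by split_ifs <;> positivity
  refine mul_le_mul_of_nonneg_right ?_ h6
  have h7 := hC i hi
  have h8 := hC j hj
  have h9 := norm_nonneg (C i)
  have h10 := norm_nonneg (C j)
  nlinarith

/-- the number of the pairs is the energy -/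
lemma pairs_energy (p x : ℕ) (s : ℕ → ℤ) (M : ℕ) (H : ℕ) (hH : ∀ m ∈ Icc 1 x, |s m| ≤ H)
    (hM : 2 * p * H < M) :
    ∑ v ∈ Fintype.piFinset (fun _ : Fin p => Icc 1 x), ∑ w ∈ Fintype.piFinset (fun _ : Fin p => Icc 1 x),
        (if (M : ℤ) ∣ ∑ i, s (v i) - ∑ i, s (w i) then (M : ℝ) else 0) = M * energy p x s := by
  have h1 : 1 ≤ M := by omega
  rw [← Pool.Agent.H373R2.T7.moment_energy p x s M H h1 hH hM,
    Pool.Agent.H373R2.T7.pow_sum_eq p x s M h1]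

lemma energy_shift (p x : ℕ) (s : ℕ → ℤ) (c₀ : ℤ) : energy p x (fun m => -(s m - c₀)) = energy p x s := by
  unfold energy
  congr 1
  ext q
  simp only [mem_filter, and_congr_right_iff]
  intro _
  simp only [sum_neg_distrib, sum_sub_distrib, neg_inj]
  constructor
  · intro h
    linarith
  · intro h
    linarith


lemma blocks (f : ℕ → ℝ) (J W : ℕ) :
    ∑ t ∈ range (J * W), f t = ∑ j ∈ range J, ∑ t ∈ Ico (j * W) ((j + 1) * W), f t := by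
  induction J with
  | zero => simp
  | succ J ih =>
    rw [sum_range_succ, ← ih, range_eq_Ico, range_eq_Ico,
      sum_Ico_consecutive _ (Nat.zero_le _) (Nat.mul_le_mul_right _ (Nat.le_succ _))]

lemma chain_le (g : ℕ → ℝ) {a b u v : ℕ} (hu : u ∈ Ico a b) (hv : v ∈ Ico a b) :
    g u ≤ g v + ∑ t ∈ Ico a b, |g (t + 1) - g t| := by
  rw [mem_Ico] at hu hv
  have h0 : ∀ t, 0 ≤ |g (t + 1) - g t| := fun t => abs_nonneg _
  rcases le_total u v with h | h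
  · have h1 := dist_le_Ico_sum_dist g h
    have h2 : ∑ t ∈ Ico u v, dist (g t) (g (t + 1)) ≤ ∑ t ∈ Ico a b, |g (t + 1) - g t| := by
      calc ∑ t ∈ Ico u v, dist (g t) (g (t + 1)) = ∑ t ∈ Ico u v, |g (t + 1) - g t| :=
            sum_congr rfl fun t _ => by rw [dist_comm, Real.dist_eq]
        _ ≤ _ := sum_le_sum_of_subset_of_nonneg (Ico_subset_Ico hu.1 hv.2.le) fun t _ _ => h0 t
    rw [Real.dist_eq] at h1
    have h3 := le_abs_self (g u - g v)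
    linarith
  · have h1 := dist_le_Ico_sum_dist g h
    have h2 : ∑ t ∈ Ico v u, dist (g t) (g (t + 1)) ≤ ∑ t ∈ Ico a b, |g (t + 1) - g t| := by
      calc ∑ t ∈ Ico v u, dist (g t) (g (t + 1)) = ∑ t ∈ Ico v u, |g (t + 1) - g t| :=
            sum_congr rfl fun t _ => by rw [dist_comm, Real.dist_eq]
        _ ≤ _ := sum_le_sum_of_subset_of_nonneg (Ico_subset_Ico hv.1 hu.2.le) fun t _ _ => h0 t
    rw [dist_comm, Real.dist_eq] at h1
    have h3 := le_abs_self (g u - g v)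
    linarith

/-- a discrete Sobolev inequality on blocks -/
lemma sobolev (g : ℕ → ℝ) (J W : ℕ) (τ : ℕ → ℕ)
    (hτ : ∀ j ∈ range J, τ j ∈ Ico (j * W) ((j + 1) * W)) :
    (W : ℝ) * ∑ j ∈ range J, g (τ j) ≤ ∑ t ∈ range (J * W), g t +
      W * ∑ t ∈ range (J * W), |g (t + 1) - g t| := by
  rw [blocks g, blocks (fun t => |g (t + 1) - g t|), mul_sum, mul_sum, ← sum_add_distrib]
  refine sum_le_sum fun j hj => ?_
  have hc : ((Ico (j * W) ((j + 1) * W)).card : ℝ) = W := by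
    rw [Nat.card_Ico]
    congr 1
    rw [add_mul, one_mul, Nat.add_sub_cancel_left]
  calc (W : ℝ) * g (τ j) = ∑ t ∈ Ico (j * W) ((j + 1) * W), g (τ j) := by
        rw [sum_const, nsmul_eq_mul, hc]
    _ ≤ ∑ t ∈ Ico (j * W) ((j + 1) * W), (g t + ∑ u ∈ Ico (j * W) ((j + 1) * W), |g (u + 1) - g u|) :=
        sum_le_sum fun t ht => chain_le g (hτ j hj) ht
    _ = _ := by rw [sum_add_distrib, sum_const, nsmul_eq_mul, hc]

lemma ee_sub_one (y : ℝ) : ‖ee y - 1‖ ≤ 2 * Real.pi * |y| := by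
  rw [Pool.Agent.H807R2.Dav.ee_eq]
  have h := Real.norm_exp_I_mul_ofReal_sub_one_le (x := 2 * Real.pi * y)
  have e : Complex.exp (((2 * Real.pi * y : ℝ) : ℂ) * Complex.I) =
      Complex.exp (Complex.I * ((2 * Real.pi * y : ℝ) : ℂ)) := by rw [mul_comm]
  rw [Real.norm_eq_abs, abs_mul, abs_of_pos (by positivity : (0 : ℝ) < 2 * Real.pi)] at h
  rw [e]
  exact h

/-- large values of an exponential sum over a family in different blocks -/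
lemma large (p B : ℕ) (x Y W : ℕ) (hY : 1 ≤ Y) (hW : 1 ≤ W) (s : ℕ → ℤ) (c₀ : ℤ) (c : ℕ → ℂ)
    (hs : ∀ m ∈ Icc 1 x, |s m - c₀| ≤ B * Y) (hc : ∀ m, ‖c m‖ ≤ 1) (hM : 2 * p * (B * Y) < 6 * Y * W)
    (τ : ℕ → ℕ) (hτ : ∀ j ∈ range (6 * Y), τ j ∈ Ico (j * W) ((j + 1) * W)) :
    ∑ j ∈ range (6 * Y), ‖∑ m ∈ Icc 1 x, c m * ee ((τ j : ℝ) * (((-(s m - c₀) : ℤ) : ℝ) / (6 * Y * W : ℕ)))‖ ^ (2 * p) ≤
      (8 + 20 * p ^ 2 * B ^ 2) * (Y * energy p x s) := by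
  obtain ⟨M, hMd⟩ : ∃ M, M = 6 * Y * W := ⟨_, rfl⟩
  rw [← hMd] at hM ⊢
  have hM1 : 1 ≤ M := by omega
  have hM0 : (0 : ℝ) < M := by exact_mod_cast hM1
  have hY0 : (0 : ℝ) < Y := by exact_mod_cast hY
  have hW0 : (0 : ℝ) < W := by exact_mod_cast hW
  have hMr : (M : ℝ) = 6 * Y * W := by rw [hMd]; push_cast; ring
  obtain ⟨σ, hσ⟩ : ∃ σ : ℕ → ℤ, σ = fun m => -(s m - c₀) := ⟨_, rfl⟩
  have hσB : ∀ m ∈ Icc 1 x, |σ m| ≤ ((B * Y : ℕ) : ℤ) := by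
    intro m hm
    rw [hσ]
    simp only [abs_neg]
    have := hs m hm
    push_cast
    exact this
  obtain ⟨E, hE⟩ : ∃ E : ℝ, E = energy p x s := ⟨_, rfl⟩
  have hE0 : 0 ≤ E := by rw [hE]; positivity
  obtain ⟨V, hV⟩ : ∃ V : Finset (Fin p → ℕ), V = Fintype.piFinset (fun _ : Fin p => Icc 1 x) := ⟨_, rfl⟩
  obtain ⟨φ, hφ⟩ : ∃ φ : (Fin p → ℕ) → ℤ, φ = fun v => ∑ i, σ (v i) := ⟨_, rfl⟩
  obtain ⟨C, hC⟩ : ∃ C : (Fin p → ℕ) → ℂ, C = fun v => ∏ i, c (v i) := ⟨_, rfl⟩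
  obtain ⟨P, hP⟩ : ∃ P : ℕ → ℂ, P = fun t : ℕ => ∑ v ∈ V, C v * ee ((t : ℝ) * ((φ v : ℝ) / M)) := ⟨_, rfl⟩
  have hC1 : ∀ v ∈ V, ‖C v‖ ≤ 1 := by
    intro v _
    rw [hC]
    simp only
    rw [norm_prod]
    exact prod_le_one (fun _ _ => norm_nonneg _) (fun i _ => hc _)
  have hφB : ∀ v ∈ V, |(φ v : ℝ)| ≤ p * (B * Y) := by
    intro v hv
    rw [hV, Fintype.mem_piFinset] at hv
    have h1 : |φ v| ≤ p * ((B * Y : ℕ) : ℤ) := by
      rw [hφ]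
      simp only
      refine (abs_sum_le_sum_abs _ _).trans ((sum_le_sum fun i _ => hσB _ (hv i)).trans ?_)
      rw [sum_const, card_univ, Fintype.card_fin, nsmul_eq_mul]
    have h2 : ((|φ v| : ℤ) : ℝ) ≤ ((p * ((B * Y : ℕ) : ℤ) : ℤ) : ℝ) := by exact_mod_cast h1
    push_cast at h2
    exact h2
  have hpairs : ∑ v ∈ V, ∑ w ∈ V, (if (M : ℤ) ∣ φ v - φ w then (M : ℝ) else 0) = M * E := by
    have h1 := pairs_energy p x σ M (B * Y) hσB hM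
    rw [hσ, energy_shift, ← hσ] at h1
    rw [hV, hφ, hE, ← h1]
  have hpow : ∀ t : ℕ, ‖∑ m ∈ Icc 1 x, c m * ee ((t : ℝ) * (((-(s m - c₀) : ℤ) : ℝ) / M))‖ ^ (2 * p) =
      ‖P t‖ ^ 2 := by
    intro t
    have h1 := pow_expand p x c σ M t
    rw [mul_comm 2 p, pow_mul, ← norm_pow]
    have h2 : ∑ m ∈ Icc 1 x, c m * ee ((t : ℝ) * (((-(s m - c₀) : ℤ) : ℝ) / M)) =
        ∑ m ∈ Icc 1 x, c m * ee ((t : ℝ) * ((σ m : ℝ) / M)) := by rw [hσ]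
    rw [h2, h1, hP, hV, hC, hφ]
  simp only [hpow]
  -- the three moments
  have m1 : ∑ t ∈ range M, ‖P t‖ ^ 2 ≤ M * E := by
    have h1 := sq_bound V C φ M hM1 1 hC1
    rw [hpairs, one_pow, one_mul] at h1
    rw [hP]
    exact h1
  have hshift : ∀ t : ℕ, P (t + 1) = ∑ v ∈ V, (C v * ee ((φ v : ℝ) / M)) * ee ((t : ℝ) * ((φ v : ℝ) / M)) := by
    intro t
    rw [hP]
    refine sum_congr rfl fun v _ => ?_
    rw [mul_assoc, ← ee_add]
    congr 2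
    push_cast
    ring
  have m2 : ∑ t ∈ range M, ‖P (t + 1)‖ ^ 2 ≤ M * E := by
    have h1 := sq_bound V (fun v => C v * ee ((φ v : ℝ) / M)) φ M hM1 1 (fun v hv => by
      rw [norm_mul, norm_ee, mul_one]
      exact hC1 v hv)
    rw [hpairs, one_pow, one_mul] at h1
    simp only [hshift]
    exact h1
  have m3 : ∑ t ∈ range M, ‖P (t + 1) - P t‖ ^ 2 ≤ (2 * Real.pi * (p * (B * Y)) / M) ^ 2 * (M * E) := by
    have h1 := sq_bound V (fun v => C v * (ee ((φ v : ℝ) / M) - 1)) φ M hM1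
      (2 * Real.pi * (p * (B * Y)) / M) (fun v hv => by
      rw [norm_mul]
      calc ‖C v‖ * ‖ee ((φ v : ℝ) / M) - 1‖ ≤ 1 * (2 * Real.pi * |(φ v : ℝ) / M|) :=
            mul_le_mul (hC1 v hv) (ee_sub_one _) (norm_nonneg _) zero_le_one
        _ = 2 * Real.pi * |(φ v : ℝ)| / M := by rw [abs_div, abs_of_pos hM0]; ring
        _ ≤ _ := by
            apply div_le_div_of_nonneg_right _ hM0.le
            exact mul_le_mul_of_nonneg_left (hφB v hv) (by positivity))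
    rw [hpairs] at h1
    refine le_trans (le_of_eq ?_) h1
    refine sum_congr rfl fun t _ => ?_
    rw [hshift, hP]
    simp only
    rw [← sum_sub_distrib]
    congr 2
    refine sum_congr rfl fun v _ => ?_
    ring
  -- the differences
  have hdiff : ∑ t ∈ range M, |‖P (t + 1)‖ ^ 2 - ‖P t‖ ^ 2| ≤ (2 + 20 * p ^ 2 * B ^ 2) * (Y * E) := by
    have h1 : ∀ t ∈ range M, |‖P (t + 1)‖ ^ 2 - ‖P t‖ ^ 2| ≤
        (M / Y / 2) * ‖P (t + 1) - P t‖ ^ 2 + (Y / M) * (‖P (t + 1)‖ ^ 2 + ‖P t‖ ^ 2) := by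
      intro t _
      have h2 : |‖P (t + 1)‖ - ‖P t‖| ≤ ‖P (t + 1) - P t‖ := abs_norm_sub_norm_le _ _
      have h3 : ‖P (t + 1)‖ ^ 2 - ‖P t‖ ^ 2 = (‖P (t + 1)‖ - ‖P t‖) * (‖P (t + 1)‖ + ‖P t‖) := by ring
      rw [h3, abs_mul, abs_of_nonneg (by positivity : (0 : ℝ) ≤ ‖P (t + 1)‖ + ‖P t‖)]
      obtain ⟨a, ha⟩ : ∃ a, a = ‖P (t + 1) - P t‖ := ⟨_, rfl⟩
      obtain ⟨b, hb⟩ : ∃ b, b = ‖P (t + 1)‖ := ⟨_, rfl⟩
      obtain ⟨d, hd⟩ : ∃ d, d = ‖P t‖ := ⟨_, rfl⟩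
      have ha0 : 0 ≤ a := by rw [ha]; exact norm_nonneg _
      have hb0 : 0 ≤ b := by rw [hb]; exact norm_nonneg _
      have hd0 : 0 ≤ d := by rw [hd]; exact norm_nonneg _
      rw [← ha, ← hb, ← hd]
      rw [← ha, ← hb, ← hd] at h2
      obtain ⟨l, hl⟩ : ∃ l : ℝ, l = M / Y := ⟨_, rfl⟩
      have hl0 : 0 < l := by rw [hl]; positivity
      have e : (Y : ℝ) / M = 1 / l := by rw [hl]; field_simp
      rw [e, ← hl]
      have h4 : |b - d| * (b + d) ≤ a * (b + d) := mul_le_mul_of_nonneg_right h2 (by positivity)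
      refine h4.trans ?_
      have h5 : a * (b + d) ≤ l / 2 * a ^ 2 + 1 / (2 * l) * (b + d) ^ 2 := by
        have h6 : 0 ≤ (l * a - (b + d)) ^ 2 / (2 * l) := by positivity
        have h7 : (l * a - (b + d)) ^ 2 / (2 * l) = l / 2 * a ^ 2 - a * (b + d) + 1 / (2 * l) * (b + d) ^ 2 := by
          field_simp
          ring
        linarith
      refine h5.trans ?_
      have h8 : 1 / (2 * l) * (b + d) ^ 2 ≤ 1 / l * (b ^ 2 + d ^ 2) := by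
        have h9 : 0 ≤ 1 / (2 * l) * (b - d) ^ 2 := by positivity
        have h10 : 1 / l * (b ^ 2 + d ^ 2) - 1 / (2 * l) * (b + d) ^ 2 = 1 / (2 * l) * (b - d) ^ 2 := by
          field_simp
          ring
        linarith
      linarith
    refine (sum_le_sum h1).trans ?_
    rw [sum_add_distrib, ← mul_sum, ← mul_sum, sum_add_distrib]
    have k1 : (M : ℝ) / Y / 2 * ∑ t ∈ range M, ‖P (t + 1) - P t‖ ^ 2 ≤ 20 * p ^ 2 * B ^ 2 * (Y * E) := by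
      calc (M : ℝ) / Y / 2 * ∑ t ∈ range M, ‖P (t + 1) - P t‖ ^ 2 ≤
            (M : ℝ) / Y / 2 * ((2 * Real.pi * (p * (B * Y)) / M) ^ 2 * (M * E)) :=
            mul_le_mul_of_nonneg_left m3 (by positivity)
        _ = (2 * Real.pi ^ 2) * (p ^ 2 * B ^ 2 * (Y * E)) := by
            field_simp
            try ring
        _ ≤ 20 * (p ^ 2 * B ^ 2 * (Y * E)) := by
            apply mul_le_mul_of_nonneg_right _ (by positivity)
            have := Real.pi_lt_d2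
            have h0 := Real.pi_pos
            nlinarith
        _ = _ := by ring
    have k2 : (Y : ℝ) / M * (∑ t ∈ range M, ‖P (t + 1)‖ ^ 2 + ∑ t ∈ range M, ‖P t‖ ^ 2) ≤ 2 * (Y * E) := by
      calc (Y : ℝ) / M * (∑ t ∈ range M, ‖P (t + 1)‖ ^ 2 + ∑ t ∈ range M, ‖P t‖ ^ 2) ≤
            (Y : ℝ) / M * (M * E + M * E) := mul_le_mul_of_nonneg_left (add_le_add m2 m1) (by positivity)
        _ = _ := by
            field_simp
            try ring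
    linarith
  -- Sobolev
  have hsob := sobolev (fun t => ‖P t‖ ^ 2) (6 * Y) W τ hτ
  beta_reduce at hsob
  rw [← hMd] at hsob
  have h1 : (W : ℝ) * ∑ j ∈ range (6 * Y), ‖P (τ j)‖ ^ 2 ≤ W * ((8 + 20 * p ^ 2 * B ^ 2) * (Y * E)) := by
    refine hsob.trans ?_
    calc ∑ t ∈ range M, ‖P t‖ ^ 2 + W * ∑ t ∈ range M, |‖P (t + 1)‖ ^ 2 - ‖P t‖ ^ 2| ≤
          M * E + W * ((2 + 20 * p ^ 2 * B ^ 2) * (Y * E)) :=
          add_le_add m1 (mul_le_mul_of_nonneg_left hdiff hW0.le)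
      _ = _ := by rw [hMr]; ring
  rw [hE] at h1
  exact le_of_mul_le_mul_left h1 hW0

/-- the Fourier identity -/
lemma fourier (A N x M : ℕ) (hM1 : 1 ≤ M) (F G c : ℕ → ℂ) (s : ℕ → ℤ)
    (hM : ∀ a ∈ Icc 1 A, ∀ m ∈ Icc 1 x, ∀ n ∈ Icc 1 N, |(n : ℤ) - a - s m| < M) :
    (M : ℂ) * ∑ a ∈ Icc 1 A, ∑ m ∈ Icc 1 x, G a * c m * fN F N ((a : ℤ) + s m) =
      ∑ t ∈ range M, Sf F N ((t : ℝ) / M) *
        (∑ a ∈ Icc 1 A, G a * ee ((t : ℝ) * ((((-1 : ℤ) * a : ℤ) : ℝ) / M))) *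
        ∑ m ∈ Icc 1 x, c m * ee ((t : ℝ) * (((-(s m) : ℤ) : ℝ) / M)) := by
  have h1 : ∀ t ∈ range M, Sf F N ((t : ℝ) / M) *
        (∑ a ∈ Icc 1 A, G a * ee ((t : ℝ) * ((((-1 : ℤ) * a : ℤ) : ℝ) / M))) *
        ∑ m ∈ Icc 1 x, c m * ee ((t : ℝ) * (((-(s m) : ℤ) : ℝ) / M)) =
      ∑ a ∈ Icc 1 A, ∑ m ∈ Icc 1 x, ∑ n ∈ Icc 1 N,
        G a * c m * F n * ee ((t : ℝ) * ((((n : ℤ) - a - s m : ℤ) : ℝ) / M)) := by
    intro t _
    unfold Sf
    rw [← Pool.Agent.H373R2.T7.triple]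
    apply sum_congr rfl
    intro a _
    apply sum_congr rfl
    intro m _
    apply sum_congr rfl
    intro n _
    have h2 : ee ((t : ℝ) * ((((n : ℤ) - a - s m : ℤ) : ℝ) / M)) =
        ee ((t : ℝ) * ((((-1 : ℤ) * a : ℤ) : ℝ) / M)) * ee ((n : ℝ) * ((t : ℝ) / M)) *
          ee ((t : ℝ) * (((-(s m) : ℤ) : ℝ) / M)) := by
      rw [← ee_add, ← ee_add]
      congr 1
      push_cast
      ring
    rw [h2]
    ring
  rw [sum_congr rfl h1]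
  symm
  rw [sum_comm, mul_sum]
  apply sum_congr rfl
  intro a ha
  rw [sum_comm, mul_sum]
  apply sum_congr rfl
  intro m hm
  rw [sum_comm]
  have h2 : ∀ n ∈ Icc 1 N, ∑ t ∈ range M, G a * c m * F n * ee ((t : ℝ) * ((((n : ℤ) - a - s m : ℤ) : ℝ) / M)) =
      if (n : ℤ) = a + s m then (M : ℂ) * (G a * c m * F n) else 0 := by
    intro n hn
    rw [← mul_sum, orth M hM1]
    by_cases h3 : (n : ℤ) = a + s m
    · rw [if_pos h3, if_pos (by rw [h3]; simp)]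
      ring
    · rw [if_neg h3, if_neg, mul_zero]
      intro hd
      apply h3
      have := Int.eq_zero_of_abs_lt_dvd hd (hM a ha m hm n hn)
      omega
  rw [sum_congr rfl h2]
  unfold fN
  by_cases h3 : 1 ≤ (a : ℤ) + s m ∧ (a : ℤ) + s m ≤ N
  · rw [if_pos h3, sum_eq_single ((a : ℤ) + s m).toNat]
    · rw [if_pos (by rw [Int.toNat_of_nonneg (by omega)])]
    · intro n _ hne
      rw [if_neg]
      intro h4
      apply hne
      omega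
    · intro h4
      exfalso
      apply h4
      rw [mem_Icc]
      omega
  · rw [if_neg h3, mul_zero, mul_zero]
    apply sum_eq_zero
    intro n hn
    rw [mem_Icc] at hn
    rw [if_neg]
    omega

/-- **FAM**: correlations along families in short intervals -/
theorem fam : S_FAM := by
  intro p B hp
  refine ⟨4 * (8 + 20 * p ^ 2 * B ^ 2), ?_, ?_⟩
  · have : (0 : ℝ) ≤ 20 * p ^ 2 * B ^ 2 := by positivity
    linarith
  intro N Y A x F G c s c₀ R η S2 hY hYN hx hWn hs hc0 hA hc hF hη hR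
  have hN1 : 1 ≤ N := hY.trans hYN
  have hN0 : (0 : ℝ) < N := by exact_mod_cast hN1
  have hY0 : (0 : ℝ) < Y := by exact_mod_cast hY
  have hx0 : (0 : ℝ) < x := by exact_mod_cast hx
  obtain ⟨W, hW⟩ : ∃ W, W = p * (B + 1) * (N / Y + 1) := ⟨_, rfl⟩
  obtain ⟨M, hMd⟩ : ∃ M, M = 6 * Y * W := ⟨_, rfl⟩
  have hYW : N < Y * (N / Y + 1) := Nat.lt_mul_div_succ N (by omega)
  have hMbig : 6 * (p * (B + 1) * N) ≤ M := by
    calc 6 * (p * (B + 1) * N) ≤ 6 * (p * (B + 1) * (Y * (N / Y + 1))) := by gcongr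
      _ = M := by rw [hMd, hW]; ring
  have hW1 : 1 ≤ W := by
    rw [hW]
    exact Nat.mul_pos (Nat.mul_pos hp (Nat.succ_pos _)) (Nat.succ_pos _)
  have hW0 : (0 : ℝ) < W := by exact_mod_cast hW1
  have hpN : (B + 1) * N ≤ p * (B + 1) * N := by
    rw [mul_assoc]
    exact Nat.le_mul_of_pos_left _ hp
  have hBN : (B + 1) * N = B * N + N := by ring
  have hM1 : 1 ≤ M := by omega
  have hM0 : (0 : ℝ) < M := by exact_mod_cast hM1
  have hMr : (M : ℝ) = 6 * Y * W := by rw [hMd]; push_cast; ring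
  have hNM : N + Y ≤ M := by omega
  have hAM : A ≤ M := by omega
  have hBY : B * Y ≤ B * N := Nat.mul_le_mul_left _ hYN
  have hHM : 2 * p * (B * Y) < 6 * Y * W := by
    rw [← hMd]
    have h1 : 2 * p * (B * Y) ≤ 2 * (p * (B + 1) * N) := by
      calc 2 * p * (B * Y) ≤ 2 * p * (B * N) := Nat.mul_le_mul_left _ hBY
        _ ≤ 2 * p * ((B + 1) * N) := by gcongr; omega
        _ = _ := by ring
    omega
  have hcond : ∀ a ∈ Icc 1 A, ∀ m ∈ Icc 1 x, ∀ n ∈ Icc 1 N, |(n : ℤ) - a - s m| < M := by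
    intro a ha m hm n hn
    rw [mem_Icc] at ha hn
    have h1 := abs_le.1 (hs m hm)
    have h2 := abs_le.1 hc0
    have h3 : (a : ℤ) ≤ B * N := by exact_mod_cast ha.2.trans hA
    have h4 : (B : ℤ) * Y ≤ B * N := by exact_mod_cast hBY
    have h5 : (6 : ℤ) * (B * N + N) ≤ M := by
      have : 6 * (B * N + N) ≤ M := by omega
      exact_mod_cast this
    have h6 : (0 : ℤ) ≤ B * N := by positivity
    have h7 : (n : ℤ) ≤ N := by exact_mod_cast hn.2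
    have h8 : (1 : ℤ) ≤ N := by exact_mod_cast hN1
    have h9 : (1 : ℤ) ≤ n := by exact_mod_cast hn.1
    have h10 : (0 : ℤ) ≤ a := by positivity
    rw [abs_lt]
    constructor <;> linarith [h1.1, h1.2, h2.1, h2.2]
  -- the functions
  obtain ⟨Fh, hFh⟩ : ∃ Fh : ℕ → ℂ, Fh = fun t : ℕ => Sf F N ((t : ℝ) / M) := ⟨_, rfl⟩
  obtain ⟨Gh, hGh⟩ : ∃ Gh : ℕ → ℂ, Gh = fun t : ℕ => ∑ a ∈ Icc 1 A, G a * ee ((t : ℝ) * ((((-1 : ℤ) * a : ℤ) : ℝ) / M)) :=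
    ⟨_, rfl⟩
  obtain ⟨Sh, hSh⟩ : ∃ Sh : ℕ → ℂ, Sh = fun t : ℕ => ∑ m ∈ Icc 1 x, c m * ee ((t : ℝ) * (((-(s m) : ℤ) : ℝ) / M)) :=
    ⟨_, rfl⟩
  obtain ⟨Kh, hKh⟩ : ∃ Kh : ℕ → ℂ, Kh = fun t : ℕ => ∑ m ∈ Icc 1 x, c m * ee ((t : ℝ) * (((-(s m - c₀) : ℤ) : ℝ) / M)) :=
    ⟨_, rfl⟩
  have hSK : ∀ t, ‖Sh t‖ = ‖Kh t‖ := by
    intro t
    have h1 : Sh t = ee (-((t : ℝ) * (c₀ / M))) * Kh t := by
      rw [hSh, hKh]
      simp only
      rw [mul_sum]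
      refine sum_congr rfl fun m _ => ?_
      have h2 : ee ((t : ℝ) * (((-(s m) : ℤ) : ℝ) / M)) =
          ee (-((t : ℝ) * (c₀ / M))) * ee ((t : ℝ) * (((-(s m - c₀) : ℤ) : ℝ) / M)) := by
        rw [← ee_add]
        congr 1
        push_cast
        ring
      rw [h2]
      ring
    rw [h1, norm_mul, norm_ee, one_mul]
  have hKx : ∀ t, ‖Kh t‖ ≤ x := by
    intro t
    rw [hKh]
    refine (norm_sum_le _ _).trans ?_
    refine (sum_le_sum (g := fun _ => (1 : ℝ)) fun m _ => ?_).trans ?_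
    · rw [norm_mul, norm_ee, mul_one]
      exact hc m
    · rw [sum_const, Nat.card_Icc, nsmul_eq_mul]
      simp
  have hid := fourier A N x M hM1 F G c s hcond
  have hGp : ∑ t ∈ range M, ‖Gh t‖ ^ 2 = M * ∑ a ∈ Icc 1 A, ‖G a‖ ^ 2 := by
    rw [hGh]
    exact Pool.Agent.H373R2.T7.parseval_Icc A M hM1 hAM G (-1) (Or.inr rfl)
  have hFp : ∑ t ∈ range M, ‖Fh t‖ ^ 2 = M * ∑ n ∈ Icc 1 N, ‖F n‖ ^ 2 := by
    rw [← Pool.Agent.H373R2.T7.parseval_Icc N M hM1 (by omega) F 1 (Or.inl rfl), hFh]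
    refine sum_congr rfl fun t _ => ?_
    congr 2
    unfold Sf
    refine sum_congr rfl fun n _ => ?_
    congr 2
    push_cast
    ring
  -- Gallagher on a block
  have hblock : ∀ j ∈ range (6 * Y), ∑ t ∈ Ico (j * W) ((j + 1) * W), ‖Fh t‖ ^ 2 ≤ 4 * (M * (R * N)) := by
    intro j hj
    rw [mem_range] at hj
    have hsub : Ico (j * W) ((j + 1) * W) ⊆ range M := by
      intro t ht
      rw [mem_Ico] at ht
      rw [mem_range, hMd]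
      exact lt_of_lt_of_le ht.2 (Nat.mul_le_mul_right _ hj)
    have h1 := gall F hNM hY (by omega : M ≠ 0) (((j * W : ℕ) : ℝ) / M) (Ico (j * W) ((j + 1) * W)) hsub (by
      intro t ht
      rw [mem_Ico] at ht
      refine ⟨0, ?_⟩
      have h2 : ((j * W : ℕ) : ℝ) ≤ t := by exact_mod_cast ht.1
      have h3 : (t : ℝ) ≤ ((j * W : ℕ) : ℝ) + W := by
        have : t ≤ j * W + W := by
          have := ht.2
          rw [add_mul, one_mul] at this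
          omega
        exact_mod_cast this
      have h4 : (t : ℝ) / M - ((j * W : ℕ) : ℝ) / M - (0 : ℤ) = (t - ((j * W : ℕ) : ℝ)) / M := by
        push_cast
        ring
      rw [h4, abs_of_nonneg (div_nonneg (by linarith) hM0.le), mul_div_assoc', div_le_one hM0, hMr]
      have : (6 : ℝ) * Y * (t - ((j * W : ℕ) : ℝ)) ≤ 6 * Y * W :=
        mul_le_mul_of_nonneg_left (by linarith) (by positivity)
      exact this)
    rw [hFh]
    refine h1.trans ?_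
    have h5 := hWn (((j * W : ℕ) : ℝ) / M)
    unfold Wn at h5
    calc 4 / (Y : ℝ) ^ 2 * (M * ∑ m ∈ range (N + Y), ‖Bw F N Y (((j * W : ℕ) : ℝ) / M) m‖ ^ 2) ≤
          4 / (Y : ℝ) ^ 2 * (M * (R * (N * (Y : ℝ) ^ 2))) := by gcongr
      _ = _ := by
          field_simp
          try ring
  -- the maxima
  have hex : ∀ j : ℕ, ∃ τ ∈ Ico (j * W) ((j + 1) * W), ∀ t ∈ Ico (j * W) ((j + 1) * W), ‖Kh t‖ ≤ ‖Kh τ‖ := by
    intro j
    refine exists_max_image _ _ ⟨j * W, ?_⟩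
    rw [mem_Ico, add_mul, one_mul]
    omega
  choose τ hτ1 hτ2 using hex
  have hlarge := large p B x Y W hY hW1 s c₀ c hs hc hHM τ (fun j _ => hτ1 j)
  rw [← hMd] at hlarge
  have hlarge' : ∑ j ∈ range (6 * Y), ‖Kh (τ j)‖ ^ (2 * p) ≤ (8 + 20 * p ^ 2 * B ^ 2) * (Y * energy p x s) := by
    rw [hKh]
    exact hlarge
  have hηx : 0 < η * x := by positivity
  have hD : ∑ t ∈ range M, ‖Kh t‖ ^ 2 * ‖Fh t‖ ^ 2 ≤ (η * x) ^ 2 * (M * (S2 * N)) +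
      (x : ℝ) ^ 2 * (4 * (M * (R * N))) / (η * x) ^ (2 * p) * ((8 + 20 * p ^ 2 * B ^ 2) * (Y * energy p x s)) := by
    have h1 : ∑ t ∈ range M, ‖Kh t‖ ^ 2 * ‖Fh t‖ ^ 2 =
        ∑ j ∈ range (6 * Y), ∑ t ∈ Ico (j * W) ((j + 1) * W), ‖Kh t‖ ^ 2 * ‖Fh t‖ ^ 2 := by
      have := blocks (fun t => ‖Kh t‖ ^ 2 * ‖Fh t‖ ^ 2) (6 * Y) W
      rw [← hMd] at this
      exact this
    have h2 : ∑ t ∈ range M, ‖Fh t‖ ^ 2 = ∑ j ∈ range (6 * Y), ∑ t ∈ Ico (j * W) ((j + 1) * W), ‖Fh t‖ ^ 2 := by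
      have := blocks (fun t => ‖Fh t‖ ^ 2) (6 * Y) W
      rw [← hMd] at this
      exact this
    have h3 : ∀ j ∈ range (6 * Y), ∑ t ∈ Ico (j * W) ((j + 1) * W), ‖Kh t‖ ^ 2 * ‖Fh t‖ ^ 2 ≤
        (η * x) ^ 2 * ∑ t ∈ Ico (j * W) ((j + 1) * W), ‖Fh t‖ ^ 2 +
          (x : ℝ) ^ 2 * (4 * (M * (R * N))) / (η * x) ^ (2 * p) * ‖Kh (τ j)‖ ^ (2 * p) := by
      intro j hj
      have hS0 : 0 ≤ ∑ t ∈ Ico (j * W) ((j + 1) * W), ‖Fh t‖ ^ 2 := sum_nonneg fun _ _ => by positivity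
      have hb := hblock j hj
      rcases le_or_gt ‖Kh (τ j)‖ (η * x) with h | h
      · have h4 : ∑ t ∈ Ico (j * W) ((j + 1) * W), ‖Kh t‖ ^ 2 * ‖Fh t‖ ^ 2 ≤
            (η * x) ^ 2 * ∑ t ∈ Ico (j * W) ((j + 1) * W), ‖Fh t‖ ^ 2 := by
          rw [mul_sum]
          refine sum_le_sum fun t ht => ?_
          refine mul_le_mul_of_nonneg_right ?_ (by positivity)
          exact pow_le_pow_left₀ (norm_nonneg _) ((hτ2 j t ht).trans h) 2
        have h5 : 0 ≤ (x : ℝ) ^ 2 * (4 * (M * (R * N))) / (η * x) ^ (2 * p) * ‖Kh (τ j)‖ ^ (2 * p) := by positivity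
        linarith
      · have h4 : ∑ t ∈ Ico (j * W) ((j + 1) * W), ‖Kh t‖ ^ 2 * ‖Fh t‖ ^ 2 ≤
            (x : ℝ) ^ 2 * ∑ t ∈ Ico (j * W) ((j + 1) * W), ‖Fh t‖ ^ 2 := by
          rw [mul_sum]
          refine sum_le_sum fun t ht => ?_
          refine mul_le_mul_of_nonneg_right ?_ (by positivity)
          exact pow_le_pow_left₀ (norm_nonneg _) (hKx t) 2
        have h5 : (x : ℝ) ^ 2 * ∑ t ∈ Ico (j * W) ((j + 1) * W), ‖Fh t‖ ^ 2 ≤ (x : ℝ) ^ 2 * (4 * (M * (R * N))) :=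
          mul_le_mul_of_nonneg_left hb (by positivity)
        have h6 : 1 ≤ ‖Kh (τ j)‖ ^ (2 * p) / (η * x) ^ (2 * p) := by
          rw [one_le_div (by positivity)]
          exact pow_le_pow_left₀ hηx.le h.le _
        have h7 : (x : ℝ) ^ 2 * (4 * (M * (R * N))) ≤
            (x : ℝ) ^ 2 * (4 * (M * (R * N))) * (‖Kh (τ j)‖ ^ (2 * p) / (η * x) ^ (2 * p)) :=
          le_mul_of_one_le_right (by positivity) h6
        have h8 : (x : ℝ) ^ 2 * (4 * (M * (R * N))) / (η * x) ^ (2 * p) * ‖Kh (τ j)‖ ^ (2 * p) =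
            (x : ℝ) ^ 2 * (4 * (M * (R * N))) * (‖Kh (τ j)‖ ^ (2 * p) / (η * x) ^ (2 * p)) := by ring
        have h9 : 0 ≤ (η * x) ^ 2 * ∑ t ∈ Ico (j * W) ((j + 1) * W), ‖Fh t‖ ^ 2 := by positivity
        rw [h8]
        linarith
    rw [h1]
    refine (sum_le_sum h3).trans ?_
    rw [sum_add_distrib, ← mul_sum, ← mul_sum, ← h2, hFp]
    refine add_le_add ?_ ?_
    · gcongr
    · exact mul_le_mul_of_nonneg_left hlarge' (by positivity)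
  -- Cauchy
  obtain ⟨T, hT⟩ : ∃ T, T = ∑ a ∈ Icc 1 A, ∑ m ∈ Icc 1 x, G a * c m * fN F N ((a : ℤ) + s m) := ⟨_, rfl⟩
  rw [← hT] at hid ⊢
  have hMT : ((M : ℝ) * ‖T‖) ^ 2 ≤ (M * ∑ a ∈ Icc 1 A, ‖G a‖ ^ 2) * ∑ t ∈ range M, ‖Kh t‖ ^ 2 * ‖Fh t‖ ^ 2 := by
    have h1 : (M : ℝ) * ‖T‖ ≤ ∑ t ∈ range M, ‖Gh t‖ * (‖Kh t‖ * ‖Fh t‖) := by
      have h2 : (M : ℝ) * ‖T‖ = ‖(M : ℂ) * T‖ := by rw [norm_mul, Complex.norm_natCast]
      rw [h2, hid]
      refine (norm_sum_le _ _).trans (sum_le_sum fun t _ => ?_)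
      have h3 : ‖∑ m ∈ Icc 1 x, c m * ee ((t : ℝ) * (((-(s m) : ℤ) : ℝ) / M))‖ = ‖Kh t‖ := by
        rw [← hSK, hSh]
      rw [norm_mul, norm_mul, h3, hFh, hGh]
      apply le_of_eq
      ring
    have h2 : ((M : ℝ) * ‖T‖) ^ 2 ≤ (∑ t ∈ range M, ‖Gh t‖ * (‖Kh t‖ * ‖Fh t‖)) ^ 2 :=
      pow_le_pow_left₀ (by positivity) h1 2
    refine h2.trans ((sum_mul_sq_le_sq_mul_sq _ _ _).trans ?_)
    rw [hGp]
    refine le_of_eq ?_
    congr 1
    exact sum_congr rfl fun t _ => mul_pow _ _ _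
  obtain ⟨g, hg⟩ : ∃ g : ℝ, g = ∑ a ∈ Icc 1 A, ‖G a‖ ^ 2 := ⟨_, rfl⟩
  have hg0 : 0 ≤ g := by rw [hg]; exact sum_nonneg fun _ _ => by positivity
  rw [← hg] at hMT ⊢
  obtain ⟨k, hk⟩ : ∃ k : ℝ, k = 8 + 20 * p ^ 2 * B ^ 2 := ⟨_, rfl⟩
  have hk1 : 1 ≤ k := by
    rw [hk]
    have : (0 : ℝ) ≤ 20 * p ^ 2 * B ^ 2 := by positivity
    linarith
  rw [← hk] at hD ⊢
  obtain ⟨E, hE⟩ : ∃ E : ℝ, E = energy p x s := ⟨_, rfl⟩
  rw [← hE] at hD ⊢
  have hS2 : 0 ≤ S2 := by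
    have h1 : 0 ≤ S2 * N := le_trans (sum_nonneg fun _ _ => by positivity) hF
    exact nonneg_of_mul_nonneg_left h1 hN0
  have h1 := hMT.trans (mul_le_mul_of_nonneg_left hD (by positivity : 0 ≤ (M : ℝ) * g))
  have h2 : ((M : ℝ) * g) * ((η * x) ^ 2 * (M * (S2 * N)) +
      (x : ℝ) ^ 2 * (4 * (M * (R * N))) / (η * x) ^ (2 * p) * (k * (Y * E))) =
      (M : ℝ) ^ 2 * (g * (N * (x : ℝ) ^ 2) * (4 * k * (R * (E * Y / (x : ℝ) ^ (2 * p)) / η ^ (2 * p)) + η ^ 2 * S2)) := by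
    rw [mul_pow, mul_pow]
    field_simp
    try ring
  rw [h2, mul_pow] at h1
  have h3 := le_of_mul_le_mul_left h1 (by positivity : (0 : ℝ) < (M : ℝ) ^ 2)
  refine h3.trans ?_
  have h4 : 4 * k * (R * (E * Y / (x : ℝ) ^ (2 * p)) / η ^ (2 * p)) + η ^ 2 * S2 ≤
      4 * k * (R * (E * Y / (x : ℝ) ^ (2 * p)) / η ^ (2 * p) + η ^ 2 * S2) := by
    have h5 : 0 ≤ η ^ 2 * S2 := by positivity
    nlinarith
  calc g * (N * (x : ℝ) ^ 2) * (4 * k * (R * (E * Y / (x : ℝ) ^ (2 * p)) / η ^ (2 * p)) + η ^ 2 * S2) ≤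
        g * (N * (x : ℝ) ^ 2) * (4 * k * (R * (E * Y / (x : ℝ) ^ (2 * p)) / η ^ (2 * p) + η ^ 2 * S2)) :=
        mul_le_mul_of_nonneg_left h4 (by positivity)
    _ = _ := by ring

end Pool.Agent.V5helper21.MW
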